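import Pool.Agent.Lib.MP_24a1b5_co.Mg.G001

/-!
# The formulation with walks
-/

set_option autoImplicit false
open scoped Classical
open N36365310

namespace Pool.Agent.Lib.MP_24a1b5_co.Br

open Finset Pool.Agent.Lib.MP_24a1b5_co.Cat Pool.Agent.Lib.MP_24a1b5_co.Pend

variable {V : Type*} [Fintype V] {G : SimpleGraph V} {Q : Set V} {f : V → V} {rk : V → ℕ}

/-- the number of neighbours -/
noncomputable def dg (G : SimpleGraph V) (v : V) : ℕ := (G.neighborSet v).ncard

namespace Par

lemma nbr (h : Par G Q f rk) {v : V} (hv : v ∉ Q) :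
    G.neighborSet v = insert (f v) (ch Q f v : Set V) := by
  ext w
  rw [SimpleGraph.mem_neighborSet, Set.mem_insert_iff, mem_coe, mem_ch]
  constructor
  · intro hw
    rcases h.edge v w hv hw with h1 | ⟨h1, h2⟩
    · exact Or.inl h1
    · exact Or.inr ⟨h1, h2.symm⟩
  · rintro (rfl | ⟨h1, h2⟩)
    · exact h.adj v hv
    · have := h.adj w h1
      rw [h2] at this
      exact this.symm

lemma par_ch (h : Par G Q f rk) {v : V} (hv : v ∉ Q) : f v ∉ ch Q f v := by
  intro h1
  rw [mem_ch] at h1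
  have h2 := h.lt v hv
  have h3 := h.lt _ h1.1
  rw [h1.2] at h3
  omega

lemma dg_eq (h : Par G Q f rk) {v : V} (hv : v ∉ Q) : dg G v = (ch Q f v).card + 1 := by
  unfold dg
  rw [h.nbr hv, Set.ncard_insert_of_notMem (by rw [mem_coe]; exact h.par_ch hv),
    Set.ncard_coe_finset]

/-- the condition on the degrees -/
lemma plain (h : Par G Q f rk) {v : V} (hv : v ∉ Q)
    (hd : dg G v = 1 ∨ (dg G v ≤ 4 ∧ {w | w ∉ Q ∧ G.Adj v w ∧ dg G w = 1}.ncard = 1)) :
    Plain Q f v := by
  rcases hd with h1 | ⟨h1, h2⟩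
  · left
    rw [h.dg_eq hv] at h1
    rw [← card_eq_zero]
    omega
  · right
    rw [h.dg_eq hv] at h1
    obtain ⟨c, hc⟩ := Set.ncard_eq_one.1 h2
    have hc1 : c ∈ {w | w ∉ Q ∧ G.Adj v w ∧ dg G w = 1} := by
      rw [hc]; exact Set.mem_singleton c
    obtain ⟨hcQ, hvc, hcd⟩ := hc1
    rw [h.dg_eq hcQ] at hcd
    have hc0 : ch Q f c = ∅ := by
      rw [← card_eq_zero]
      omega
    have hcv : c ∈ ch Q f v := by
      rcases h.edge v c hv hvc with h3 | ⟨h3, h4⟩
      · exfalso
        have h5 : v ∈ ch Q f c := mem_ch.2 ⟨hv, h3.symm⟩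
        rw [hc0] at h5
        exact absurd h5 (notMem_empty v)
      · exact mem_ch.2 ⟨h3, h4.symm⟩
    refine ⟨c, hcv, hc0, ?_, ?_⟩
    · rw [card_erase_of_mem hcv]
      omega
    · intro d hd h3
      rw [mem_erase, mem_ch] at hd
      have h4 : d ∈ {w | w ∉ Q ∧ G.Adj v w ∧ dg G w = 1} := by
        refine ⟨hd.2.1, ?_, ?_⟩
        · have := h.adj d hd.2.1
          rw [hd.2.2] at this
          exact this.symm
        · rw [h.dg_eq hd.2.1, h3, card_empty]
      rw [hc, Set.mem_singleton_iff] at h4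
      exact hd.1 h4

end Par

/-- the conditions of the final statement for one path, with the leaf neighbours outside the path -/
structure Gd (G : SimpleGraph V) (p : Σ a b : V, G.Walk a b) (z : V) : Prop where
  path : p.2.2.IsPath
  reach : G.Reachable z p.1
  off : ∀ v, G.Reachable z v → v ∉ p.2.2.support →
    dg G v = 1 ∨ (dg G v ≤ 4 ∧ {w | w ∉ p.2.2.support ∧ G.Adj v w ∧ dg G w = 1}.ncard = 1)

omit [Fintype V] in
lemma one_lt_dg {v a b : V} (ha : G.Adj v a) (hb : G.Adj v b) (hab : a ≠ b) : dg G v ≠ 1 := by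
  intro h
  obtain ⟨c, hc⟩ := Set.ncard_eq_one.1 h
  have h1 : a ∈ G.neighborSet v := ha
  have h2 : b ∈ G.neighborSet v := hb
  rw [hc, Set.mem_singleton_iff] at h1 h2
  exact hab (h1.trans h2.symm)

omit [Fintype V] in
lemma exists_nbr {a b w u : V} (p : G.Walk a b) (hw : w ∈ p.support) (hu : u ∈ p.support)
    (hne : w ≠ u) : ∃ t ∈ p.support, G.Adj w t := by
  have h1 : ∀ (c d : V) (r : G.Walk c d), c ≠ d → ∃ t ∈ r.support, G.Adj c t := by
    intro c d r hcd
    cases r with
    | nil => exact absurd rfl hcd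
    | @cons _ t _ h r =>
      refine ⟨t, ?_, h⟩
      rw [SimpleGraph.Walk.support_cons]
      exact List.mem_cons_of_mem _ r.start_mem_support
  obtain ⟨t, ht, hwt⟩ := h1 w u ((p.takeUntil w hw).reverse.append (p.takeUntil u hu)) hne
  refine ⟨t, ?_, hwt⟩
  rw [SimpleGraph.Walk.mem_support_append_iff, SimpleGraph.Walk.support_reverse,
    List.mem_reverse] at ht
  rcases ht with ht | ht
  · exact p.support_takeUntil_subset_support hw ht
  · exact p.support_takeUntil_subset_support hu ht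

/-- the leaf neighbours can be supposed to be outside the path -/
lemma exists_gd {z a b : V} (p : G.Walk a b) (hp : p.IsPath) (hr : G.Reachable z a)
    (hoff : ∀ v, G.Reachable z v → v ∉ p.support →
      dg G v = 1 ∨ (dg G v ≤ 4 ∧ {w | G.Adj v w ∧ dg G w = 1}.ncard = 1)) :
    ∃ p : Σ a b : V, G.Walk a b, Gd G p z := by
  by_cases hex : ∃ v w, v ∉ p.support ∧ w ∈ p.support ∧ G.Adj v w ∧ dg G w = 1
  · obtain ⟨v, w, hv, hw, hvw, hd⟩ := hex
    have hsup : ∀ u ∈ p.support, u = w := by
      intro u hu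
      by_contra hne
      obtain ⟨t, ht, hwt⟩ := exists_nbr p hw hu (Ne.symm hne)
      exact one_lt_dg hvw.symm hwt (fun h => hv (h ▸ ht)) hd
    have haw : a = w := hsup a p.start_mem_support
    refine ⟨⟨w, v, SimpleGraph.Walk.cons hvw.symm SimpleGraph.Walk.nil⟩, ?_, haw ▸ hr, ?_⟩
    · rw [SimpleGraph.Walk.cons_isPath_iff]
      refine ⟨SimpleGraph.Walk.IsPath.nil, ?_⟩
      simp only [SimpleGraph.Walk.support_nil, List.mem_singleton]
      exact (G.ne_of_adj hvw).symm
    · intro u hu hus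
      simp only [SimpleGraph.Walk.support_cons, SimpleGraph.Walk.support_nil, List.mem_cons,
        List.not_mem_nil, or_false, not_or] at hus ⊢
      have hup : u ∉ p.support := fun h => hus.1 (hsup u h)
      rcases hoff u hu hup with h1 | ⟨h1, h2⟩
      · exact Or.inl h1
      · right
        refine ⟨h1, ?_⟩
        refine Eq.trans (congrArg Set.ncard ?_) h2
        ext t
        simp only [Set.mem_ofPred_eq]
        constructor
        · rintro ⟨-, h3⟩
          exact h3
        · rintro ⟨h3, h4⟩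
          refine ⟨⟨?_, ?_⟩, h3, h4⟩
          · rintro rfl
            exact one_lt_dg hvw.symm h3.symm (Ne.symm hus.2) hd
          · rintro rfl
            exact one_lt_dg hvw h3.symm (Ne.symm hus.1) h4
  · push Not at hex
    refine ⟨⟨a, b, p⟩, hp, hr, ?_⟩
    intro v hv hvp
    rcases hoff v hv hvp with h1 | ⟨h1, h2⟩
    · exact Or.inl h1
    · right
      refine ⟨h1, ?_⟩
      refine Eq.trans (congrArg Set.ncard ?_) h2
      ext t
      simp only [Set.mem_ofPred_eq]
      constructor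
      · rintro ⟨-, h3⟩
        exact h3
      · rintro ⟨h3, h4⟩
        exact ⟨fun h5 => hex v t hvp h5 h3 h4, h3, h4⟩

/-- the final statement with walks -/
theorem main' (G : SimpleGraph V) (hG : G.IsAcyclic)
    (h : ∀ z : V, ∃ (a b : V) (p : G.Walk a b), p.IsPath ∧ G.Reachable z a ∧
      ∀ v, G.Reachable z v → v ∉ p.support →
        (G.neighborSet v).ncard = 1 ∨ ((G.neighborSet v).ncard ≤ 4 ∧
          {w | G.Adj v w ∧ (G.neighborSet w).ncard = 1}.ncard = 1)) :
    (∀ k, indepSeq G k * indepSeq G (k + 2) ≤ indepSeq G (k + 1) ^ 2) ∧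
      UnimodalSeq (indepSeq G) := by
  have h' : ∀ z : V, ∃ p : Σ a b : V, G.Walk a b, Gd G p z := by
    intro z
    obtain ⟨a, b, p, h1, h2, h3⟩ := h z
    exact exists_gd p h1 h2 h3
  choose P hP using h'
  let r : V → V := fun v => (G.connectedComponentMk v).out
  have hr : ∀ v, G.Reachable (r v) v := by
    intro v
    have : G.connectedComponentMk (r v) = G.connectedComponentMk v := Quot.out_eq _
    exact SimpleGraph.ConnectedComponent.exact this
  have hreach : ∀ v w, G.Reachable v w → r v = r w := by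
    intro v w hvw
    have : G.connectedComponentMk v = G.connectedComponentMk w :=
      SimpleGraph.ConnectedComponent.sound hvw
    simp only [r, this]
  obtain ⟨Q, hQd⟩ : ∃ Q : Set V, Q = {v | v ∈ (P (r v)).2.2.support} := ⟨_, rfl⟩
  have hQ : ∀ v w, G.Reachable v w → (w ∈ Q ↔ w ∈ (P (r v)).2.2.support) := by
    intro v w hvw
    rw [hreach v w hvw, hQd]
    rfl
  -- the rank
  have hex : ∀ v : V, ∃ n : ℕ, ∃ q ∈ Q, ∃ w : G.Walk v q, w.length = n := by
    intro v
    have h1 : G.Reachable v (P (r v)).1 := (hr v).symm.trans (hP (r v)).reach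
    obtain ⟨w⟩ := h1
    refine ⟨w.length, (P (r v)).1, ?_, w, rfl⟩
    rw [hQ v _ w.reachable]
    exact SimpleGraph.Walk.start_mem_support _
  obtain ⟨rk, hrk⟩ : ∃ rk : V → ℕ, rk = fun v => Nat.find (hex v) := ⟨_, rfl⟩
  have hrk1 : ∀ v, ∃ q ∈ Q, ∃ w : G.Walk v q, w.length = rk v := by
    intro v
    rw [hrk]
    exact Nat.find_spec (hex v)
  have hrk2 : ∀ v, ∀ q ∈ Q, ∀ w : G.Walk v q, rk v ≤ w.length := by
    intro v q hq w
    rw [hrk]
    exact Nat.find_min' (hex v) ⟨q, hq, w, rfl⟩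
  have hrk0 : ∀ v ∈ Q, rk v = 0 := by
    intro v hv
    have := hrk2 v v hv SimpleGraph.Walk.nil
    simpa using this
  have hpar : ∀ v, ∃ u, (v ∈ Q → u = v) ∧ (v ∉ Q → G.Adj v u ∧ rk u < rk v) := by
    intro v
    by_cases hv : v ∈ Q
    · exact ⟨v, fun _ => rfl, fun h => absurd hv h⟩
    · obtain ⟨q, hq, w, hw⟩ := hrk1 v
      cases w with
      | nil => exact absurd hq hv
      | @cons _ u _ hvu w =>
        refine ⟨u, fun h => absurd h hv, fun _ => ⟨hvu, ?_⟩⟩
        have h1 := hrk2 u q hq w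
        rw [SimpleGraph.Walk.length_cons] at hw
        omega
  choose f hf1 hf2 using hpar
  have hside : ∀ v, ∀ (n : ℕ) (u : V), rk u = n → rk u ≤ rk v → u ≠ v → v ∉ Q →
      ∃ q ∈ Q, ∃ w : G.Walk u q, v ∉ w.support := by
    intro v n
    induction n using Nat.strong_induction_on with
    | _ n ih =>
    intro u hn hle hne hv
    by_cases hu : u ∈ Q
    · refine ⟨u, hu, SimpleGraph.Walk.nil, ?_⟩
      rw [SimpleGraph.Walk.support_nil, List.mem_singleton]
      exact hne.symm
    · have h1 := hf2 u hu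
      obtain ⟨q, hq, w, hw⟩ := ih (rk (f u)) (by omega) (f u) rfl (by omega)
        (fun h => by rw [h] at h1; omega) hv
      refine ⟨q, hq, SimpleGraph.Walk.cons h1.1 w, ?_⟩
      rw [SimpleGraph.Walk.support_cons, List.mem_cons]
      rintro (h2 | h2)
      · exact hne h2.symm
      · exact hw h2
  have hside' : ∀ v u, v ∉ Q → G.Adj v u → rk u ≤ rk v → Side (P (r v)).2.2 v u := by
    intro v u hv hvu hle
    obtain ⟨q, hq, w, hw⟩ := hside v _ u rfl hle (G.ne_of_adj hvu).symm hv
    refine ⟨q, ?_, w, hw⟩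
    exact (hQ v q (hvu.reachable.trans w.reachable)).1 hq
  have huniq : ∀ v u, v ∉ Q → G.Adj v u → rk u ≤ rk v → u = f v := by
    intro v u hv hvu hle
    have h1 := hf2 v hv
    have h2 : v ∉ (P (r v)).2.2.support := fun h => hv ((hQ v v (SimpleGraph.Reachable.refl v)).2 h)
    exact eq_of_side hG h2 hvu h1.1 (hside' v u hv hvu hle) (hside' v (f v) hv h1.1 h1.2.le)
  have hPar : Par G Q f rk := by
    refine ⟨hf1, fun v hv => (hf2 v hv).1, fun v hv => (hf2 v hv).2, ?_⟩
    intro v w hv hvw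
    rcases le_or_gt (rk w) (rk v) with hle | hlt
    · exact Or.inl (huniq v w hv hvw hle)
    · right
      have hw : w ∉ Q := by
        intro h1
        have := hrk0 w h1
        omega
      exact ⟨hw, huniq w v hw hvw.symm hlt.le⟩
  apply main hG hPar
  · intro v hv
    apply hPar.plain hv
    have hv' : v ∉ (P (r v)).2.2.support := fun h => hv ((hQ v v (SimpleGraph.Reachable.refl v)).2 h)
    rcases (hP (r v)).off v (hr v) hv' with h1 | ⟨h1, h2⟩
    · exact Or.inl h1
    · right
      refine ⟨h1, ?_⟩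
      refine Eq.trans (congrArg Set.ncard ?_) h2
      ext w
      simp only [Set.mem_ofPred_eq]
      constructor
      · rintro ⟨h3, h4, h5⟩
        exact ⟨fun h6 => h3 ((hQ v w h4.reachable).2 h6), h4, h5⟩
      · rintro ⟨h3, h4, h5⟩
        exact ⟨fun h6 => h3 ((hQ v w h4.reachable).1 h6), h4, h5⟩
  · intro v hv
    have hv' : v ∈ (P (r v)).2.2.support := (hQ v v (SimpleGraph.Reachable.refl v)).1 hv
    refine le_trans ?_ ((path_nbrs hG (P (r v)).2.2 (hP (r v)).path).2 v hv')
    apply Set.ncard_le_ncard _ (Set.toFinite _)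
    rintro w ⟨hw, hvw⟩
    exact ⟨(hQ v w hvw.reachable).1 hw, hvw⟩

end Pool.Agent.Lib.MP_24a1b5_co.Br
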